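import Pool.Agent.Lib.MP_3aeeeb_co.Graph

/-! # A unicyclic graph of girth four in `𝒢^SSP` which is neither a cycle nor a tadpole

The graph `exGraph` on `{0, ..., 7}` is the path `0 - 1 - ... - 7` together with the edge `{3, 6}`:
a four-cycle `3, 4, 5, 6` with a path of length three attached at the vertex `3` and a pendant
vertex attached at the adjacent vertex `6`. -/

set_option autoImplicit false

open SimpleGraph

namespace Pool.Agent.Results.MP_3aeeeb_co.GirthFourExample

open Pool.Agent.Lib.MP_3aeeeb_co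

/-- There is a unicyclic graph of girth `4` (with `8` vertices) all of whose matrices have the
Strong Spectral Property, and which is not a cycle `C_4` or `C_5` nor a tadpole `T_{4,n}` or
`T_{5,n}`. -/
theorem result : ∃ G : SimpleGraph (Fin 8),
    (∀ i j : Fin 8, G.Adj i j ↔ (i.val + 1 = j.val ∨ j.val + 1 = i.val ∨
      (i.val = 3 ∧ j.val = 6) ∨ (i.val = 6 ∧ j.val = 3))) ∧
    IsUnicyclic G ∧ G.girth = 4 ∧ IsSSPGraph G ∧
    IsEmpty (G ≃g SimpleGraph.cycleGraph 4) ∧ IsEmpty (G ≃g SimpleGraph.cycleGraph 5) ∧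
    ∀ n : ℕ, 1 ≤ n → IsEmpty (G ≃g tadpole 4 n) ∧ IsEmpty (G ≃g tadpole 5 n) :=
  ⟨exGraph, exGraph_adj, exGraph_unicyclic, exGraph_girth, exGraph_ssp, not_cycle (by norm_num),
    not_cycle (by norm_num), fun n _ => ⟨not_tadpole 4 n, not_tadpole 5 n⟩⟩

end Pool.Agent.Results.MP_3aeeeb_co.GirthFourExample
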